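import Mathlib

namespace Pool.Agent.Results.MP_3c4d8f_co.DeltaLeZir

open Classical

/-- A PSD fort: a nonempty vertex set `F` such that no vertex outside `F` has exactly one
neighbour in a connected component of `G[F]`. -/
def IsPSDFort {V : Type} (G : SimpleGraph V) (F : Set V) : Prop :=
  F.Nonempty ∧ ∀ v ∉ F, ∀ W : (G.induce F).ConnectedComponent,
    (G.neighborSet v ∩ (Subtype.val '' W.supp)).ncard ≠ 1

/-- A `Z_+Ir`-set: every `u ∈ S` has a private PSD fort. -/
def IsZIr {V : Type} (G : SimpleGraph V) (S : Finset V) : Prop :=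
  ∀ u ∈ S, ∃ F : Set V, IsPSDFort G F ∧ (S : Set V) ∩ F = {u}

/-- Maximal (under inclusion) `Z_+Ir`-sets. -/
def IsMaxZIr {V : Type} (G : SimpleGraph V) (S : Finset V) : Prop :=
  IsZIr G S ∧ ∀ T : Finset V, S ⊂ T → ¬ IsZIr G T

/-- The lower PSD forcing irredundance number. -/
noncomputable def zplusir {V : Type} (G : SimpleGraph V) : ℕ :=
  sInf {k | ∃ S : Finset V, IsMaxZIr G S ∧ S.card = k}

section
variable {V : Type} [Fintype V] {G : SimpleGraph V}

/-- Outer boundary (open neighbourhood) of a set. -/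
noncomputable def nb (G : SimpleGraph V) (Z : Finset V) : Finset V :=
  Finset.univ.filter (fun x => x ∉ Z ∧ ∃ z ∈ Z, G.Adj x z)

lemma mem_nb {Z : Finset V} {x : V} : x ∈ nb G Z ↔ x ∉ Z ∧ ∃ z ∈ Z, G.Adj x z := by
  simp [nb]

/-- Connectedness, in cut form. -/
def Con (G : SimpleGraph V) (Z : Finset V) : Prop :=
  ∀ A ⊆ Z, A.Nonempty → A ≠ Z → ∃ a ∈ A, ∃ b ∈ Z, b ∉ A ∧ G.Adj a b

/-- Connected PSD forts. -/
def CF (G : SimpleGraph V) (Z : Finset V) : Prop :=
  Z.Nonempty ∧ Con G Z ∧ ∀ x ∉ Z, ∀ w ∈ Z, G.Adj x w → ∃ w' ∈ Z, w' ≠ w ∧ G.Adj x w'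

/-- degree bound -/
lemma deg_bound {Z : Finset V} {z : V} (hz : z ∈ Z) {δ : ℕ}
    (hδ : ∀ v, δ ≤ (Finset.univ.filter (fun w => G.Adj v w)).card) :
    δ + 1 ≤ Z.card + (nb G Z).card := by
  have h1 : (Finset.univ.filter (fun w => G.Adj z w)) ∪ {z} ⊆ Z ∪ nb G Z := by
    intro y hy
    simp only [Finset.mem_union, Finset.mem_filter, Finset.mem_univ, true_and,
      Finset.mem_singleton] at hy ⊢
    rcases hy with hy | rfl
    · by_cases h : y ∈ Z
      · exact Or.inl h
      · exact Or.inr (mem_nb.2 ⟨h, z, hz, hy.symm⟩)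
    · exact Or.inl hz
  have h2 : ((Finset.univ.filter (fun w => G.Adj z w)) ∪ {z}).card =
      (Finset.univ.filter (fun w => G.Adj z w)).card + 1 := by
    rw [Finset.card_union_of_disjoint]
    · simp
    · simp
  have h3 := Finset.card_le_card h1
  have h4 := Finset.card_union_le Z (nb G Z)
  have h5 := hδ z
  omega

/-- Minimal sets with small boundary are connected forts. -/
lemma exists_min {δ t : ℕ} (hδ : ∀ v, δ ≤ (Finset.univ.filter (fun w => G.Adj v w)).card)
    (ht : t < δ) (U : Finset V)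
    (h : ∃ Z ⊆ U, Z.Nonempty ∧ (nb G Z).card ≤ t) :
    ∃ Y ⊆ U, CF G Y ∧ (nb G Y).card = t ∧ 2 ≤ Y.card ∧
      ∀ X ⊆ Y, X.Nonempty → X ≠ Y → t + 1 ≤ (nb G X).card := by
  obtain ⟨Y, hY, hmin⟩ := Finset.exists_min_image
    ((Finset.univ : Finset (Finset V)).filter
      (fun Z => Z ⊆ U ∧ Z.Nonempty ∧ (nb G Z).card ≤ t)) Finset.card (by
        obtain ⟨Z, h1, h2, h3⟩ := h
        exact ⟨Z, by simp [h1, h2, h3]⟩)
  simp only [Finset.mem_filter, Finset.mem_univ, true_and] at hY hmin
  obtain ⟨hYU, hYne, hYt⟩ := hY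
  have hmin' : ∀ X ⊆ Y, X.Nonempty → X ≠ Y → t + 1 ≤ (nb G X).card := by
    intro X hX hXne hXY
    by_contra hlt
    have := hmin X ⟨hX.trans hYU, hXne, by omega⟩
    have h2 := Finset.card_lt_card (Finset.ssubset_iff_subset_ne.2 ⟨hX, hXY⟩)
    omega
  obtain ⟨y0, hy0⟩ := hYne
  have hcard := deg_bound (G := G) hy0 hδ
  have h2 : 2 ≤ Y.card := by omega
  -- key fact: for v in Y, boundary of Y - v
  have hkey : ∀ v ∈ Y, (nb G Y).card = t ∧ nb G (Y.erase v) = insert v (nb G Y) := by
    intro v hv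
    have hne : (Y.erase v).Nonempty := by
      rw [← Finset.card_pos, Finset.card_erase_of_mem hv]; omega
    have h3 := hmin' (Y.erase v) (Finset.erase_subset _ _) hne (by
      intro h; rw [← h] at hv; simp at hv)
    have hsub : nb G (Y.erase v) ⊆ insert v (nb G Y) := by
      intro x hx
      rw [mem_nb] at hx
      obtain ⟨hx1, z, hz, hadj⟩ := hx
      rw [Finset.mem_insert]
      by_cases hxv : x = v
      · exact Or.inl hxv
      · right
        rw [mem_nb]
        refine ⟨?_, z, Finset.mem_of_mem_erase hz, hadj⟩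
        intro hxY
        exact hx1 (Finset.mem_erase.2 ⟨hxv, hxY⟩)
    have h4 := Finset.card_le_card hsub
    have h5 := Finset.card_insert_le v (nb G Y)
    refine ⟨by omega, ?_⟩
    exact Finset.eq_of_subset_of_card_le hsub (by omega)
  refine ⟨Y, hYU, ⟨⟨y0, hy0⟩, ?_, ?_⟩, (hkey y0 hy0).1, h2, hmin'⟩
  · -- connectedness
    intro A hA hAne hAY
    by_contra hcon
    push Not at hcon
    have h3 := hmin' A hA hAne hAY
    have hsub : nb G A ⊆ nb G Y := by
      intro x hx
      rw [mem_nb] at hx ⊢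
      obtain ⟨hx1, z, hz, hadj⟩ := hx
      refine ⟨?_, z, hA hz, hadj⟩
      intro hxY
      exact hcon z hz x hxY hx1 hadj.symm
    have h4 := Finset.card_le_card hsub
    omega
  · intro x hx w hw hadj
    have h3 := (hkey w hw).2
    have hxn : x ∈ nb G Y := mem_nb.2 ⟨hx, w, hw, hadj⟩
    have : x ∈ nb G (Y.erase w) := by rw [h3]; exact Finset.mem_insert_of_mem hxn
    rw [mem_nb] at this
    obtain ⟨_, z, hz, hadj2⟩ := this
    exact ⟨z, Finset.mem_of_mem_erase hz, Finset.ne_of_mem_erase hz, hadj2⟩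

omit [Fintype V] in
/-- Union of two intersecting connected forts. -/
lemma cf_union {K Y : Finset V} (hK : CF G K) (hY : CF G Y) {v : V} (h1 : v ∈ K) (h2 : v ∈ Y) :
    CF G (K ∪ Y) := by
  refine ⟨⟨v, Finset.mem_union_left _ h1⟩, ?_, ?_⟩
  · intro A hA hAne hAU
    by_contra hcon
    push Not at hcon
    -- A ∩ K is ∅ or K, A ∩ Y is ∅ or Y
    have hKc : A ∩ K = ∅ ∨ A ∩ K = K := by
      by_contra hh
      push Not at hh
      obtain ⟨a, ha, b, hb, hbA, hadj⟩ := hK.2.1 (A ∩ K) Finset.inter_subset_right hh.1 hh.2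
      refine hcon a (Finset.mem_inter.1 ha).1 b (Finset.mem_union_left _ hb) ?_ hadj
      intro hbA'
      exact hbA (Finset.mem_inter.2 ⟨hbA', hb⟩)
    have hYc : A ∩ Y = ∅ ∨ A ∩ Y = Y := by
      by_contra hh
      push Not at hh
      obtain ⟨a, ha, b, hb, hbA, hadj⟩ := hY.2.1 (A ∩ Y) Finset.inter_subset_right hh.1 hh.2
      refine hcon a (Finset.mem_inter.1 ha).1 b (Finset.mem_union_right _ hb) ?_ hadj
      intro hbA'
      exact hbA (Finset.mem_inter.2 ⟨hbA', hb⟩)
    by_cases hvA : v ∈ A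
    · have e1 : A ∩ K = K := by
        rcases hKc with h | h
        · exfalso
          have : v ∈ A ∩ K := Finset.mem_inter.2 ⟨hvA, h1⟩
          rw [h] at this; simp at this
        · exact h
      have e2 : A ∩ Y = Y := by
        rcases hYc with h | h
        · exfalso
          have : v ∈ A ∩ Y := Finset.mem_inter.2 ⟨hvA, h2⟩
          rw [h] at this; simp at this
        · exact h
      apply hAU
      apply Finset.Subset.antisymm hA
      apply Finset.union_subset
      · exact Finset.inter_eq_right.1 e1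
      · exact Finset.inter_eq_right.1 e2
    · have e1 : A ∩ K = ∅ := by
        rcases hKc with h | h
        · exact h
        · exfalso
          have : v ∈ A ∩ K := by rw [h]; exact h1
          exact hvA (Finset.mem_inter.1 this).1
      have e2 : A ∩ Y = ∅ := by
        rcases hYc with h | h
        · exact h
        · exfalso
          have : v ∈ A ∩ Y := by rw [h]; exact h2
          exact hvA (Finset.mem_inter.1 this).1
      obtain ⟨a, ha⟩ := hAne
      rcases Finset.mem_union.1 (hA ha) with h | h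
      · have : a ∈ A ∩ K := Finset.mem_inter.2 ⟨ha, h⟩
        rw [e1] at this; simp at this
      · have : a ∈ A ∩ Y := Finset.mem_inter.2 ⟨ha, h⟩
        rw [e2] at this; simp at this
  · intro x hx w hw hadj
    rw [Finset.mem_union, not_or] at hx
    rcases Finset.mem_union.1 hw with h | h
    · obtain ⟨w', h3, h4, h5⟩ := hK.2.2 x hx.1 w h hadj
      exact ⟨w', Finset.mem_union_left _ h3, h4, h5⟩
    · obtain ⟨w', h3, h4, h5⟩ := hY.2.2 x hx.2 w h hadj
      exact ⟨w', Finset.mem_union_right _ h3, h4, h5⟩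

/-- The main propagation lemma: the fort `K` can be shrunk by a proper subset `P` of `Y`. -/
lemma inner {t : ℕ}
    {K Y : Finset V} (hK : CF G K) (hYK : Y ⊆ K) (hYne : Y ≠ K)
    (hYt : (nb G Y).card = t)
    (hmin : ∀ X ⊆ Y, X.Nonempty → X ≠ Y → t + 1 ≤ (nb G X).card)
    (P : Finset V) (hPY : P ⊆ Y) (hPne : P.Nonempty) (hPY' : P ≠ Y)
    (hI : (nb G (K \ P) ∩ (P ∪ (nb G Y \ K))).card ≤ (nb G Y \ K).card + 1) :
    Con G (K \ P) ∧ (∀ y ∈ nb G (K \ P) ∩ (P ∪ (nb G Y \ K)), ∃ w ∈ Y \ P, G.Adj y w) ∧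
      (nb G (Y \ P)).card ≤ t + 1 ∧ (nb G Y ∩ K).Nonempty := by
  -- M nonempty
  have hM : (nb G Y ∩ K).Nonempty := by
    have hYn : Y.Nonempty := hPne.mono hPY
    obtain ⟨a, ha, b, hb, hbA, hadj⟩ := hK.2.1 Y hYK hYn hYne
    exact ⟨b, Finset.mem_inter.2 ⟨mem_nb.2 ⟨hbA, a, ha, hadj.symm⟩, hb⟩⟩
  have hRM : (nb G Y \ K).card + (nb G Y ∩ K).card = t := by
    rw [← hYt]; exact Finset.card_sdiff_add_card_inter _ _
  -- key claim
  have key : ∀ X ⊆ Y \ P, X.Nonempty → (∀ a ∈ X, ∀ b ∈ Y \ P, b ∉ X → ¬ G.Adj a b) →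
      (nb G Y ∩ K ⊆ nb G X ∧ nb G (K \ P) ∩ (P ∪ (nb G Y \ K)) ⊆ nb G X ∧
        (nb G X).card ≤ t + 1) := by
    intro X hX hXne hno
    have hXY : X ⊆ Y := hX.trans Finset.sdiff_subset
    have hXP : ∀ a ∈ X, a ∉ P := fun a ha => (Finset.mem_sdiff.1 (hX ha)).2
    have hXneY : X ≠ Y := by
      intro h
      obtain ⟨p, hp⟩ := hPne
      exact hXP p (h ▸ hPY hp) hp
    have h1 := hmin X hXY hXne hXneY
    have hsub : nb G X ⊆ (nb G (K \ P) ∩ (P ∪ (nb G Y \ K))) ∪ (nb G Y ∩ K) := by
      intro x hx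
      rw [mem_nb] at hx
      obtain ⟨hxX, z, hz, hadj⟩ := hx
      have hzKP : z ∈ K \ P := Finset.mem_sdiff.2 ⟨hYK (hXY hz), hXP z hz⟩
      by_cases hxY : x ∈ Y
      · -- x ∈ P
        have hxP : x ∈ P := by
          by_contra hxP
          exact hno z hz x (Finset.mem_sdiff.2 ⟨hxY, hxP⟩) hxX hadj.symm
        apply Finset.mem_union_left
        rw [Finset.mem_inter]
        refine ⟨mem_nb.2 ⟨?_, z, hzKP, hadj⟩, Finset.mem_union_left _ hxP⟩
        intro h
        exact (Finset.mem_sdiff.1 h).2 hxP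
      · have hxnb : x ∈ nb G Y := mem_nb.2 ⟨hxY, z, hXY hz, hadj⟩
        by_cases hxK : x ∈ K
        · exact Finset.mem_union_right _ (Finset.mem_inter.2 ⟨hxnb, hxK⟩)
        · apply Finset.mem_union_left
          rw [Finset.mem_inter]
          refine ⟨mem_nb.2 ⟨?_, z, hzKP, hadj⟩,
            Finset.mem_union_right _ (Finset.mem_sdiff.2 ⟨hxnb, hxK⟩)⟩
          intro h
          exact hxK (Finset.mem_sdiff.1 h).1
    have h2 := Finset.card_le_card hsub
    have h3 := Finset.card_union_le (nb G (K \ P) ∩ (P ∪ (nb G Y \ K))) (nb G Y ∩ K)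
    have heq := Finset.eq_of_subset_of_card_le hsub (by omega)
    refine ⟨?_, ?_, by omega⟩
    · rw [heq]; exact Finset.subset_union_right
    · rw [heq]; exact Finset.subset_union_left
  have hYPne : (Y \ P).Nonempty := by
    rw [Finset.sdiff_nonempty]
    intro h
    exact hPY' (Finset.Subset.antisymm hPY h)
  refine ⟨?_, ?_, ?_, hM⟩
  · -- connectedness of K \ P
    intro A hA hAne hAKP
    by_contra hcon
    push Not at hcon
    -- complement part
    have hA2ne : ((K \ P) \ A).Nonempty := by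
      rw [Finset.sdiff_nonempty]
      intro h
      exact hAKP (Finset.Subset.antisymm hA h)
    -- general fact: for a nonempty closed part B of K\P, if it avoids Y then it meets M
    have hMA : ∀ B ⊆ K \ P, B.Nonempty → (∀ a ∈ B, ∀ b ∈ K \ P, b ∉ B → ¬ G.Adj a b) →
        ∃ m ∈ nb G Y ∩ K, m ∈ B := by
      intro B hB hBne hclosed
      by_cases hBY : (B ∩ Y).Nonempty
      · have hk := key (B ∩ Y) (by
            intro z hz
            rw [Finset.mem_inter] at hz
            exact Finset.mem_sdiff.2 ⟨hz.2, (Finset.mem_sdiff.1 (hB hz.1)).2⟩) hBY (by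
            intro a ha b hb hbB
            rw [Finset.mem_inter] at ha
            rw [Finset.mem_sdiff] at hb
            refine hclosed a ha.1 b (Finset.mem_sdiff.2 ⟨hYK hb.1, hb.2⟩) ?_
            intro h
            exact hbB (Finset.mem_inter.2 ⟨h, hb.1⟩))
        obtain ⟨m, hm⟩ := hM
        refine ⟨m, hm, ?_⟩
        have hm1 := hk.1 hm
        rw [mem_nb] at hm1
        obtain ⟨_, z, hz, hadj⟩ := hm1
        rw [Finset.mem_inter] at hz
        by_contra hmB
        have hmY : m ∉ Y := (mem_nb.1 (Finset.mem_inter.1 hm).1).1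
        exact hclosed z hz.1 m (Finset.mem_sdiff.2 ⟨(Finset.mem_inter.1 hm).2,
          fun h => hmY (hPY h)⟩) hmB hadj.symm
      · -- B avoids Y: use connectedness of K
        have hBK : B ⊆ K := hB.trans Finset.sdiff_subset
        have hBneK : B ≠ K := by
          intro h
          obtain ⟨p, hp⟩ := hPne
          have : p ∈ B := h ▸ hYK (hPY hp)
          exact (Finset.mem_sdiff.1 (hB this)).2 hp
        obtain ⟨a, ha, b, hb, hbB, hadj⟩ := hK.2.1 B hBK hBne hBneK
        have hbP : b ∈ P := by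
          by_contra hbP
          exact hclosed a ha b (Finset.mem_sdiff.2 ⟨hb, hbP⟩) hbB hadj
        refine ⟨a, ?_, ha⟩
        rw [Finset.mem_inter]
        refine ⟨mem_nb.2 ⟨?_, b, hPY hbP, hadj⟩, hBK ha⟩
        intro haY
        exact hBY ⟨a, Finset.mem_inter.2 ⟨ha, haY⟩⟩
    -- which part contains all of M
    have hall : ∀ B ⊆ K \ P, (B ∩ Y).Nonempty →
        (∀ a ∈ B, ∀ b ∈ K \ P, b ∉ B → ¬ G.Adj a b) → ∀ m ∈ nb G Y ∩ K, m ∈ B := by
      intro B hB hBY hclosed m hm
      have hk := key (B ∩ Y) (by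
            intro z hz
            rw [Finset.mem_inter] at hz
            exact Finset.mem_sdiff.2 ⟨hz.2, (Finset.mem_sdiff.1 (hB hz.1)).2⟩) hBY (by
            intro a ha b hb hbB
            rw [Finset.mem_inter] at ha
            rw [Finset.mem_sdiff] at hb
            refine hclosed a ha.1 b (Finset.mem_sdiff.2 ⟨hYK hb.1, hb.2⟩) ?_
            intro h
            exact hbB (Finset.mem_inter.2 ⟨h, hb.1⟩))
      have hm1 := hk.1 hm
      rw [mem_nb] at hm1
      obtain ⟨_, z, hz, hadj⟩ := hm1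
      rw [Finset.mem_inter] at hz
      by_contra hmB
      have hmY : m ∉ Y := (mem_nb.1 (Finset.mem_inter.1 hm).1).1
      exact hclosed z hz.1 m (Finset.mem_sdiff.2 ⟨(Finset.mem_inter.1 hm).2,
          fun h => hmY (hPY h)⟩) hmB hadj.symm
    have hclA : ∀ a ∈ A, ∀ b ∈ K \ P, b ∉ A → ¬ G.Adj a b := hcon
    have hclA2 : ∀ a ∈ (K \ P) \ A, ∀ b ∈ K \ P, b ∉ (K \ P) \ A → ¬ G.Adj a b := by
      intro a ha b hb hbA hadj
      have hbA' : b ∈ A := by
        by_contra h
        exact hbA (Finset.mem_sdiff.2 ⟨hb, h⟩)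
      exact hcon b hbA' a (Finset.mem_sdiff.1 ha).1 (Finset.mem_sdiff.1 ha).2 hadj.symm
    obtain ⟨m1, hm1, hm1A⟩ := hMA A hA hAne hclA
    obtain ⟨m2, hm2, hm2A⟩ := hMA ((K \ P) \ A) Finset.sdiff_subset hA2ne hclA2
    obtain ⟨y, hy⟩ := hYPne
    rw [Finset.mem_sdiff] at hy
    have hyKP : y ∈ K \ P := Finset.mem_sdiff.2 ⟨hYK hy.1, hy.2⟩
    by_cases hyA : y ∈ A
    · have := hall A hA ⟨y, Finset.mem_inter.2 ⟨hyA, hy.1⟩⟩ hclA m2 hm2
      exact (Finset.mem_sdiff.1 hm2A).2 this
    · have := hall ((K \ P) \ A) Finset.sdiff_subset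
        ⟨y, Finset.mem_inter.2 ⟨Finset.mem_sdiff.2 ⟨hyKP, hyA⟩, hy.1⟩⟩ hclA2 m1 hm1
      exact (Finset.mem_sdiff.1 this).2 hm1A
  · intro y hy
    have hk := key (Y \ P) subset_rfl hYPne (by intro a _ b hb hbn; exact absurd hb hbn)
    have := hk.2.1 hy
    rw [mem_nb] at this
    obtain ⟨_, w, hw, hadj⟩ := this
    exact ⟨w, hw, hadj⟩
  · exact (key (Y \ P) subset_rfl hYPne (by intro a _ b hb hbn; exact absurd hb hbn)).2.2

/-- One propagation step inside `Y`. -/
lemma inner_step {t : ℕ}
    {K Y : Finset V} (hK : CF G K) (hYK : Y ⊆ K) (hYne : Y ≠ K)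
    (hYt : (nb G Y).card = t)
    (hmin : ∀ X ⊆ Y, X.Nonempty → X ≠ Y → t + 1 ≤ (nb G X).card)
    (P : Finset V) (hPY : P ⊆ Y) (hPne : P.Nonempty) (hPY' : P ≠ Y)
    (hI : (nb G (K \ P) ∩ (P ∪ (nb G Y \ K))).card ≤ (nb G Y \ K).card + 1) :
    CF G (K \ P) ∨ ∃ x w, w ∈ Y \ P ∧ x ∈ P ∪ (nb G Y \ K) ∧ G.Adj x w ∧
      (∀ w' ∈ K \ P, G.Adj x w' → w' = w) ∧
      (nb G (K \ insert w P) ∩ (insert w P ∪ (nb G Y \ K))).card ≤ (nb G Y \ K).card + 1 := by
  obtain ⟨hcon, hadjY, _, _⟩ := inner hK hYK hYne hYt hmin P hPY hPne hPY' hI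
  have hYPne : (Y \ P).Nonempty := by
    rw [Finset.sdiff_nonempty]
    intro h
    exact hPY' (Finset.Subset.antisymm hPY h)
  have hKPne : (K \ P).Nonempty := by
    obtain ⟨y, hy⟩ := hYPne
    exact ⟨y, Finset.mem_sdiff.2 ⟨hYK (Finset.mem_sdiff.1 hy).1, (Finset.mem_sdiff.1 hy).2⟩⟩
  by_cases hthird : ∀ x ∉ K \ P, ∀ w ∈ K \ P, G.Adj x w → ∃ w' ∈ K \ P, w' ≠ w ∧ G.Adj x w'
  · exact Or.inl ⟨hKPne, hcon, hthird⟩
  · right
    push Not at hthird
    obtain ⟨x, hx, w, hw, hadj, huniq⟩ := hthird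
    have huniq' : ∀ w' ∈ K \ P, G.Adj x w' → w' = w := by
      intro w' hw' ha
      by_contra hne
      exact huniq w' hw' hne ha
    have hxPR : x ∈ P ∪ (nb G Y \ K) := by
      by_cases hxK : x ∈ K
      · apply Finset.mem_union_left
        by_contra hxP
        exact hx (Finset.mem_sdiff.2 ⟨hxK, hxP⟩)
      · apply Finset.mem_union_right
        obtain ⟨w2, hw2, hne, ha2⟩ := hK.2.2 x hxK w (Finset.mem_sdiff.1 hw).1 hadj
        have hw2P : w2 ∈ P := by
          by_contra h
          exact hne (huniq' w2 (Finset.mem_sdiff.2 ⟨hw2, h⟩) ha2)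
        rw [Finset.mem_sdiff]
        exact ⟨mem_nb.2 ⟨fun h => hxK (hYK h), w2, hPY hw2P, ha2⟩, hxK⟩
    have hxmem : x ∈ nb G (K \ P) ∩ (P ∪ (nb G Y \ K)) :=
      Finset.mem_inter.2 ⟨mem_nb.2 ⟨hx, w, hw, hadj⟩, hxPR⟩
    obtain ⟨w3, hw3, ha3⟩ := hadjY x hxmem
    have hw3K : w3 ∈ K \ P :=
      Finset.mem_sdiff.2 ⟨hYK (Finset.mem_sdiff.1 hw3).1, (Finset.mem_sdiff.1 hw3).2⟩
    have hww : w3 = w := huniq' w3 hw3K ha3
    rw [hww] at hw3
    refine ⟨x, w, hw3, hxPR, hadj, huniq', ?_⟩
    have hsub : nb G (K \ insert w P) ∩ (insert w P ∪ (nb G Y \ K)) ⊆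
        insert w ((nb G (K \ P) ∩ (P ∪ (nb G Y \ K))).erase x) := by
      intro y hy
      rw [Finset.mem_inter, mem_nb] at hy
      obtain ⟨⟨hy1, z, hz, ha⟩, hy2⟩ := hy
      rw [Finset.mem_insert]
      by_cases hyw : y = w
      · exact Or.inl hyw
      · right
        rw [Finset.mem_sdiff, Finset.mem_insert, not_or] at hz
        have hzKP : z ∈ K \ P := Finset.mem_sdiff.2 ⟨hz.1, hz.2.2⟩
        rw [Finset.mem_erase]
        refine ⟨?_, ?_⟩
        · rintro rfl
          exact hz.2.1 (huniq' z hzKP ha)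
        · rw [Finset.mem_inter]
          have hy3 : y ∈ P ∪ (nb G Y \ K) := by
            rcases Finset.mem_union.1 hy2 with h | h
            · rcases Finset.mem_insert.1 h with h | h
              · exact absurd h hyw
              · exact Finset.mem_union_left _ h
            · exact Finset.mem_union_right _ h
          refine ⟨mem_nb.2 ⟨?_, z, hzKP, ha⟩, hy3⟩
          intro hyKP
          rw [Finset.mem_sdiff] at hyKP
          rcases Finset.mem_union.1 hy3 with h | h
          · exact hyKP.2 h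
          · exact (Finset.mem_sdiff.1 h).2 hyKP.1
    have h1 := Finset.card_le_card hsub
    have h2 := Finset.card_insert_le w ((nb G (K \ P) ∩ (P ∪ (nb G Y \ K))).erase x)
    have h3 := Finset.card_erase_of_mem hxmem
    have h4 : 0 < (nb G (K \ P) ∩ (P ∪ (nb G Y \ K))).card := Finset.card_pos.2 ⟨x, hxmem⟩
    omega

/-- Case 1: small threshold, the fort can always be shrunk around `v`. -/
lemma shrink {δ t : ℕ} (hδ : ∀ v, δ ≤ (Finset.univ.filter (fun w => G.Adj v w)).card)
    (htδ : t + 2 ≤ δ)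
    {K Y : Finset V} (hK : CF G K) (hYK : Y ⊆ K) (hYne : Y ≠ K)
    (hYt : (nb G Y).card = t)
    (hmin : ∀ X ⊆ Y, X.Nonempty → X ≠ Y → t + 1 ≤ (nb G X).card) :
    ∀ (n : ℕ) (P : Finset V), (Y \ P).card = n → P ⊆ Y → P.Nonempty → P ≠ Y →
      (nb G (K \ P) ∩ (P ∪ (nb G Y \ K))).card ≤ (nb G Y \ K).card + 1 →
      ∃ Q, P ⊆ Q ∧ Q ⊆ Y ∧ CF G (K \ Q) := by
  intro n
  induction n using Nat.strong_induction_on with
  | _ n ih =>
    intro P hn hPY hPne hPY' hI
    rcases inner_step hK hYK hYne hYt hmin P hPY hPne hPY' hI with h | ⟨x, w, hw, _, _, _, hI2⟩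
    · exact ⟨P, subset_rfl, hPY, h⟩
    · obtain ⟨_, _, hcard, _⟩ := inner hK hYK hYne hYt hmin P hPY hPne hPY' hI
      have hdb := deg_bound (G := G) hw hδ
      have h2 : 2 ≤ (Y \ P).card := by omega
      rw [Finset.mem_sdiff] at hw
      have hins : insert w P ⊆ Y := Finset.insert_subset hw.1 hPY
      have hcard2 : (Y \ insert w P).card + 1 = (Y \ P).card := by
        have e1 := Finset.card_sdiff_add_card_eq_card hins
        have e2 := Finset.card_sdiff_add_card_eq_card hPY
        have e3 := Finset.card_insert_of_notMem hw.2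
        omega
      obtain ⟨Q, hQ1, hQ2, hQ3⟩ := ih (Y \ insert w P).card (by omega) (insert w P) rfl hins
        ⟨w, Finset.mem_insert_self _ _⟩ (by
          intro h
          rw [h] at hcard2
          simp at hcard2
          omega) hI2
      exact ⟨Q, (Finset.subset_insert _ _).trans hQ1, hQ2, hQ3⟩

lemma start_I {K Y : Finset V} (v : V) :
    (nb G (K \ {v}) ∩ ({v} ∪ (nb G Y \ K))).card ≤ (nb G Y \ K).card + 1 := by
  have h1 : nb G (K \ {v}) ∩ ({v} ∪ (nb G Y \ K)) ⊆ {v} ∪ (nb G Y \ K) :=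
    Finset.inter_subset_right
  have h2 := Finset.card_le_card h1
  have h3 := Finset.card_union_le {v} (nb G Y \ K)
  simp only [Finset.card_singleton] at h3
  omega

omit [Fintype V] in
lemma con_insert {Z : Finset V} (hZ : Con G Z) {a b : V} (ha : a ∈ Z) (hab : G.Adj a b) :
    Con G (insert b Z) := by
  intro A hA hAne hAZ
  by_contra hcon
  push Not at hcon
  have h1 : A ∩ Z = ∅ ∨ A ∩ Z = Z := by
    by_contra hh
    push Not at hh
    obtain ⟨c, hc, d, hd, hdA, hadj⟩ := hZ (A ∩ Z) Finset.inter_subset_right hh.1 hh.2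
    refine hcon c (Finset.mem_inter.1 hc).1 d (Finset.mem_insert_of_mem hd) ?_ hadj
    intro h
    exact hdA (Finset.mem_inter.2 ⟨h, hd⟩)
  rcases h1 with h1 | h1
  · -- A = {b}
    obtain ⟨c, hc⟩ := hAne
    have hcb : c = b := by
      rcases Finset.mem_insert.1 (hA hc) with h | h
      · exact h
      · exfalso
        have : c ∈ A ∩ Z := Finset.mem_inter.2 ⟨hc, h⟩
        rw [h1] at this; simp at this
    have haA : a ∉ A := by
      intro h
      have : a ∈ A ∩ Z := Finset.mem_inter.2 ⟨h, ha⟩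
      rw [h1] at this; simp at this
    exact hcon c hc a (Finset.mem_insert_of_mem ha) haA (hcb ▸ hab.symm)
  · have hZA : Z ⊆ A := Finset.inter_eq_right.1 h1
    by_cases hbA : b ∈ A
    · exact hAZ (Finset.Subset.antisymm hA (Finset.insert_subset hbA hZA))
    · exact hcon a (hZA ha) b (Finset.mem_insert_self _ _) hbA hab

lemma exists_comp {K U : Finset V} (hK : Con G K) (hKU : K ⊆ U) :
    ∃ Z, K ⊆ Z ∧ Z ⊆ U ∧ Con G Z ∧ ∀ a ∈ Z, ∀ b ∈ U, G.Adj a b → b ∈ Z := by
  obtain ⟨Z, hZ, hmax⟩ := Finset.exists_max_image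
    ((Finset.univ : Finset (Finset V)).filter (fun Z => K ⊆ Z ∧ Z ⊆ U ∧ Con G Z))
    Finset.card ⟨K, by simp [hK, hKU]⟩
  simp only [Finset.mem_filter, Finset.mem_univ, true_and] at hZ hmax
  refine ⟨Z, hZ.1, hZ.2.1, hZ.2.2, ?_⟩
  intro a ha b hb hadj
  by_contra hbZ
  have h1 := hmax (insert b Z) ⟨hZ.1.trans (Finset.subset_insert _ _),
    Finset.insert_subset hb hZ.2.1, con_insert hZ.2.2 ha hadj⟩
  rw [Finset.card_insert_of_notMem hbZ] at h1
  omega

/-- Reversal lemma. -/
lemma reversal_aux {K : Finset V} (hK : CF G K) :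
    ∀ (n : ℕ) (Z B : Finset V), Z.card = n → K ⊆ Z → Con G Z → Disjoint Z B →
      (∀ a ∈ Z, ∀ b, b ∉ B → G.Adj a b → b ∈ Z) →
      (∀ K', CF G K' → Disjoint K' B → K ⊆ K' → K' = K) →
      ∃ B' : Finset V, B'.card = B.card ∧ nb G K ⊆ B' ∧
        ∀ F, CF G F → Disjoint F B' → Disjoint F B := by
  intro n
  induction n using Nat.strong_induction_on with
  | _ n ih =>
    intro Z B hn hKZ hZ hdis hcl hmax
    have hZne : Z.Nonempty := hK.1.mono hKZ
    by_cases hthird : ∀ x ∉ Z, ∀ w ∈ Z, G.Adj x w → ∃ w' ∈ Z, w' ≠ w ∧ G.Adj x w'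
    · have hZK : Z = K := hmax Z ⟨hZne, hZ, hthird⟩ hdis hKZ
      refine ⟨B, rfl, ?_, fun F _ h => h⟩
      intro x hx
      rw [mem_nb] at hx
      obtain ⟨hx1, z, hz, hadj⟩ := hx
      by_contra hxB
      have := hcl z (hKZ hz) x hxB hadj.symm
      rw [hZK] at this
      exact hx1 this
    · push Not at hthird
      obtain ⟨x, hx, w, hw, hadj, huniq⟩ := hthird
      have huniq' : ∀ w' ∈ Z, G.Adj x w' → w' = w := by
        intro w' hw' ha
        by_contra hne
        exact huniq w' hw' hne ha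
      have hxB : x ∈ B := by
        by_contra h
        exact hx (hcl w hw x h hadj.symm)
      have hwB : w ∉ B := fun h => Finset.disjoint_left.1 hdis hw h
      have hwK : w ∉ K := by
        intro h
        obtain ⟨w', h1, h2, h3⟩ := hK.2.2 x (fun h' => hx (hKZ h')) w h hadj
        exact h2 (huniq' w' (hKZ h1) h3)
      -- new blue set
      have hforts : ∀ F, CF G F → Disjoint F (insert w (B.erase x)) → Disjoint F B := by
        intro F hF hFB
        have hnotB1 : ∀ f ∈ F, f ≠ x → f ∉ B := by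
          intro f hf hfx hfB
          exact Finset.disjoint_left.1 hFB hf
            (Finset.mem_insert_of_mem (Finset.mem_erase.2 ⟨hfx, hfB⟩))
        have hwF : w ∉ F := fun h => Finset.disjoint_left.1 hFB h (Finset.mem_insert_self _ _)
        have hxF : x ∉ F := by
          intro hxF
          have hA : F ∩ Z = ∅ := by
            by_contra hA
            have hAne : (F ∩ Z).Nonempty := Finset.nonempty_iff_ne_empty.2 hA
            obtain ⟨a, ha, b, hb, hbA, hab⟩ := hF.2.1 (F ∩ Z) Finset.inter_subset_left hAne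
              (by
                intro h
                have : x ∈ F ∩ Z := by rw [h]; exact hxF
                exact hx (Finset.mem_inter.1 this).2)
            rw [Finset.mem_inter] at ha
            by_cases hbx : b = x
            · subst hbx
              have := huniq' a ha.2 hab.symm
              rw [this] at ha
              exact hwF ha.1
            · have hbZ := hcl a ha.2 b (hnotB1 b hb hbx) hab
              exact hbA (Finset.mem_inter.2 ⟨hb, hbZ⟩)
          obtain ⟨w', hw', hne, ha⟩ := hF.2.2 w hwF x hxF hadj.symm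
          have hwZ := hcl w hw w' (hnotB1 w' hw' hne) ha
          have : w' ∈ F ∩ Z := Finset.mem_inter.2 ⟨hw', hwZ⟩
          rw [hA] at this
          simp at this
        rw [Finset.disjoint_left]
        intro f hf
        exact hnotB1 f hf (fun h => hxF (h ▸ hf))
      have hcardB : (insert w (B.erase x)).card = B.card := by
        rw [Finset.card_insert_of_notMem, Finset.card_erase_of_mem hxB]
        · have := Finset.card_pos.2 ⟨x, hxB⟩
          omega
        · intro h
          exact hwB (Finset.mem_of_mem_erase h)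
      have hKe : K ⊆ Z.erase w := by
        intro k hk
        exact Finset.mem_erase.2 ⟨fun h => hwK (h ▸ hk), hKZ hk⟩
      obtain ⟨Z1, h1, h2, h3, h4⟩ := exists_comp hK.2.1 hKe
      have hZ1Z : Z1 ⊆ Z := h2.trans (Finset.erase_subset _ _)
      have hc1 : Z1.card < n := by
        have e1 := Finset.card_le_card h2
        rw [Finset.card_erase_of_mem hw] at e1
        have := Finset.card_pos.2 hZne
        omega
      obtain ⟨B', hB1, hB2, hB3⟩ := ih Z1.card hc1 Z1 (insert w (B.erase x)) rfl h1 h3 (by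
          rw [Finset.disjoint_left]
          intro z hz hzB
          rcases Finset.mem_insert.1 hzB with h | h
          · exact (Finset.mem_erase.1 (h2 hz)).1 h
          · exact Finset.disjoint_left.1 hdis (hZ1Z hz) (Finset.mem_of_mem_erase h)) (by
          intro a ha b hb hab
          rw [Finset.mem_insert, not_or] at hb
          by_cases hbx : b = x
          · subst hbx
            exfalso
            have := huniq' a (hZ1Z ha) hab.symm
            exact (Finset.mem_erase.1 (h2 ha)).1 this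
          · have hbB : b ∉ B := fun h => hb.2 (Finset.mem_erase.2 ⟨hbx, h⟩)
            have hbZ := hcl a (hZ1Z ha) b hbB hab
            exact h4 a ha b (Finset.mem_erase.2 ⟨hb.1, hbZ⟩) hab) (by
          intro K' hK' hdis' hsub
          exact hmax K' hK' (hforts K' hK' hdis') hsub)
      exact ⟨B', by rw [hB1, hcardB], hB2, fun F hF h => hforts F hF (hB3 F hF h)⟩

lemma reversal {K B : Finset V} (hK : CF G K) (hKB : Disjoint K B)
    (hmax : ∀ K', CF G K' → Disjoint K' B → K ⊆ K' → K' = K) :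
    ∃ B' : Finset V, B'.card = B.card ∧ nb G K ⊆ B' ∧
      ∀ F, CF G F → Disjoint F B' → Disjoint F B := by
  have hKU : K ⊆ Finset.univ \ B := by
    intro k hk
    exact Finset.mem_sdiff.2 ⟨Finset.mem_univ _, Finset.disjoint_left.1 hKB hk⟩
  obtain ⟨Z, h1, h2, h3, h4⟩ := exists_comp hK.2.1 hKU
  refine reversal_aux hK Z.card Z B rfl h1 h3 ?_ ?_ hmax
  · rw [Finset.disjoint_left]
    intro z hz
    exact (Finset.mem_sdiff.1 (h2 hz)).2
  · intro a ha b hb hab
    exact h4 a ha b (Finset.mem_sdiff.2 ⟨Finset.mem_univ _, hb⟩) hab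

/-- Private connected forts. -/
def Irr (G : SimpleGraph V) (S : Finset V) : Prop :=
  ∀ u ∈ S, ∃ F : Finset V, CF G F ∧ S ∩ F = {u}

omit [Fintype V] in
lemma priv {S K F : Finset V} {u v : V} (huS : u ∈ S)
    (hdis : Disjoint K (S.erase u)) (hFK : F ⊆ K) (huF : u ∈ F) (hvF : v ∉ F) :
    insert v S ∩ F = {u} := by
  ext x
  simp only [Finset.mem_inter, Finset.mem_insert, Finset.mem_singleton]
  constructor
  · rintro ⟨h1, h2⟩
    rcases h1 with h1 | h1
    · exact absurd (h1 ▸ h2) hvF
    · by_contra hne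
      exact Finset.disjoint_left.1 hdis (hFK h2) (Finset.mem_erase.2 ⟨hne, h1⟩)
  · rintro rfl
    exact ⟨Or.inr huS, huF⟩

/-- Maximal connected fort of `u` avoiding `S - u`, swallowing any fort that meets it. -/
lemma exists_K {S : Finset V} {u : V} (hu : u ∈ S) (hirr : Irr G S) :
    ∃ K : Finset V, CF G K ∧ u ∈ K ∧ Disjoint K (S.erase u) ∧
      (∀ K', CF G K' → Disjoint K' (S.erase u) → K ⊆ K' → K' = K) := by
  obtain ⟨F, hF, hSF⟩ := hirr u hu
  have huF : u ∈ F := by
    have : u ∈ S ∩ F := by rw [hSF]; exact Finset.mem_singleton_self u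
    exact (Finset.mem_inter.1 this).2
  have hFd : Disjoint F (S.erase u) := by
    rw [Finset.disjoint_left]
    intro x hx hx2
    rw [Finset.mem_erase] at hx2
    have : x ∈ S ∩ F := Finset.mem_inter.2 ⟨hx2.2, hx⟩
    rw [hSF, Finset.mem_singleton] at this
    exact hx2.1 this
  obtain ⟨K, hK, hmax⟩ := Finset.exists_max_image
    ((Finset.univ : Finset (Finset V)).filter
      (fun K => CF G K ∧ u ∈ K ∧ Disjoint K (S.erase u))) Finset.card
    ⟨F, by simp only [Finset.mem_filter, Finset.mem_univ, true_and]; exact ⟨hF, huF, hFd⟩⟩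
  simp only [Finset.mem_filter, Finset.mem_univ, true_and] at hK hmax
  refine ⟨K, hK.1, hK.2.1, hK.2.2, ?_⟩
  intro K' h1 h2 h3
  have := hmax K' ⟨h1, h3 hK.2.1, h2⟩
  exact (Finset.eq_of_subset_of_card_le h3 this).symm

/-- **Extension theorem.** A set with private forts and fewer than `δ` elements is not maximal. -/
theorem extend [Nonempty V] {δ : ℕ}
    (hδ : ∀ v, δ ≤ (Finset.univ.filter (fun w => G.Adj v w)).card)
    (S : Finset V) (hS : S.card < δ) (hirr : Irr G S) :
    ∃ v ∉ S, Irr G (insert v S) := by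
  -- it suffices to find Y, and a small v in it
  have main : ∀ Y : Finset V, CF G Y → Y ⊆ Finset.univ \ S → ∀ v ∈ Y,
      (∀ u ∈ S, ∀ K : Finset V, CF G K → u ∈ K → Disjoint K (S.erase u) →
        (∀ K', CF G K' → Disjoint K' (S.erase u) → K ⊆ K' → K' = K) →
        Y ⊆ K → Y ≠ K → ∃ Q, {v} ⊆ Q ∧ Q ⊆ Y ∧ CF G (K \ Q)) →
      ∃ v ∉ S, Irr G (insert v S) := by
    intro Y hY hYS v hv hsh
    have hvS : v ∉ S := (Finset.mem_sdiff.1 (hYS hv)).2
    refine ⟨v, hvS, ?_⟩
    intro u hu
    rcases Finset.mem_insert.1 hu with rfl | huS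
    · refine ⟨Y, hY, ?_⟩
      ext x
      simp only [Finset.mem_inter, Finset.mem_insert, Finset.mem_singleton]
      constructor
      · rintro ⟨h1 | h1, h2⟩
        · exact h1
        · exact absurd h1 (Finset.mem_sdiff.1 (hYS h2)).2
      · rintro rfl
        exact ⟨Or.inl rfl, hv⟩
    · obtain ⟨K, hK, huK, hKd, hmax⟩ := exists_K huS hirr
      by_cases hvK : v ∈ K
      · have huY : u ∉ Y := fun h => (Finset.mem_sdiff.1 (hYS h)).2 huS
        have hYd : Disjoint Y (S.erase u) := by
          rw [Finset.disjoint_left]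
          intro x hx hx2
          exact (Finset.mem_sdiff.1 (hYS hx)).2 (Finset.mem_of_mem_erase hx2)
        have hUn := hmax (K ∪ Y) (cf_union hK hY hvK hv)
          (Finset.disjoint_union_left.2 ⟨hKd, hYd⟩) Finset.subset_union_left
        have hYK : Y ⊆ K := by
          rw [← hUn]; exact Finset.subset_union_right
        have hYne : Y ≠ K := fun h => huY (h ▸ huK)
        obtain ⟨Q, hQ1, hQ2, hQ3⟩ := hsh u huS K hK huK hKd hmax hYK hYne
        refine ⟨K \ Q, hQ3, priv huS hKd Finset.sdiff_subset ?_ ?_⟩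
        · exact Finset.mem_sdiff.2 ⟨huK, fun h => huY (hQ2 h)⟩
        · intro h
          exact (Finset.mem_sdiff.1 h).2 (hQ1 (Finset.mem_singleton_self v))
      · exact ⟨K, hK, priv huS hKd subset_rfl huK hvK⟩
  by_cases h1 : ∃ Z ⊆ Finset.univ \ S, Z.Nonempty ∧ (nb G Z).card + 1 ≤ S.card
  · obtain ⟨Z, hZ1, hZ2, hZ3⟩ := h1
    obtain ⟨Y, hYS, hY, hYt, hY2, hmin⟩ := exists_min (t := S.card - 1) hδ (by omega)
      (Finset.univ \ S) ⟨Z, hZ1, hZ2, by omega⟩
    obtain ⟨v, hv⟩ := hY.1
    refine main Y hY hYS v hv ?_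
    intro u huS K hK huK hKd hmax hYK hYne
    exact shrink hδ (by omega) hK hYK hYne hYt hmin (Y \ {v}).card {v} rfl
      (Finset.singleton_subset_iff.2 hv) ⟨v, Finset.mem_singleton_self v⟩ (by
        intro h
        rw [← h] at hY2
        simp at hY2) (start_I v)
  · push Not at h1
    -- the whole complement
    have hVcard : δ + 1 ≤ (Finset.univ : Finset V).card := by
      obtain ⟨z⟩ := ‹Nonempty V›
      have h2 := deg_bound (G := G) (Finset.mem_univ z) hδ
      have h3 : nb G (Finset.univ : Finset V) = ∅ := by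
        ext x; simp [mem_nb]
      rw [h3] at h2
      simpa using h2
    have hZne : (Finset.univ \ S).Nonempty := by
      rw [Finset.sdiff_nonempty]
      intro h
      have := Finset.card_le_card h
      omega
    have hnbc : (nb G (Finset.univ \ S)).card ≤ S.card := by
      apply Finset.card_le_card
      intro x hx
      rw [mem_nb] at hx
      by_contra hxS
      exact hx.1 (Finset.mem_sdiff.2 ⟨Finset.mem_univ _, hxS⟩)
    obtain ⟨Y, hYS, hY, hYt, hY2, hmin⟩ := exists_min (t := S.card) hδ hS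
      (Finset.univ \ S) ⟨Finset.univ \ S, subset_rfl, hZne, hnbc⟩
    obtain ⟨v, hv⟩ := hY.1
    refine main Y hY hYS v hv ?_
    intro u huS K hK huK hKd hmax hYK hYne
    have hvK := hYK hv
    have hPY' : ({v} : Finset V) ≠ Y := by
      intro h
      rw [← h] at hY2
      simp at hY2
    have hspos : 0 < S.card := Finset.card_pos.2 ⟨u, huS⟩
    obtain ⟨_, _, _, hMne⟩ := inner hK hYK hYne hYt hmin {v}
      (Finset.singleton_subset_iff.2 hv) ⟨v, Finset.mem_singleton_self v⟩ hPY' (start_I v)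
    have hRM : (nb G Y \ K).card + (nb G Y ∩ K).card = S.card := by
      rw [← hYt]; exact Finset.card_sdiff_add_card_inter _ _
    have hMpos := Finset.card_pos.2 hMne
    rcases inner_step hK hYK hYne hYt hmin {v}
      (Finset.singleton_subset_iff.2 hv) ⟨v, Finset.mem_singleton_self v⟩ hPY' (start_I v) with
      h | ⟨x, w, hw, hx, hadj, huniq, _⟩
    · exact ⟨{v}, subset_rfl, Finset.singleton_subset_iff.2 hv, h⟩
    · exfalso
      rcases Finset.mem_union.1 hx with hxv | hxR
      · -- x = v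
        rw [Finset.mem_singleton] at hxv
        subst hxv
        have hsub : (Finset.univ.filter (fun w => G.Adj x w)) ⊆ insert w (nb G Y \ K) := by
          intro y hy
          rw [Finset.mem_filter] at hy
          rw [Finset.mem_insert]
          by_cases hyK : y ∈ K
          · left
            refine huniq y (Finset.mem_sdiff.2 ⟨hyK, ?_⟩) hy.2
            rw [Finset.mem_singleton]
            exact hy.2.ne'
          · right
            exact Finset.mem_sdiff.2 ⟨mem_nb.2 ⟨fun h => hyK (hYK h), x, hv, hy.2.symm⟩, hyK⟩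
        have h3 := Finset.card_le_card hsub
        have h4 := Finset.card_insert_le w (nb G Y \ K)
        have h5 := hδ x
        omega
      · rw [Finset.mem_sdiff] at hxR
        obtain ⟨hxnY, hxK⟩ := hxR
        obtain ⟨D', hD'c, hKD', hD'⟩ := reversal hK hKd hmax
        rw [Finset.card_erase_of_mem huS] at hD'c
        have hwK : w ∈ K := hYK (Finset.mem_sdiff.1 hw).1
        have hxnK : x ∈ nb G K := mem_nb.2 ⟨hxK, w, hwK, hadj⟩
        -- neighbour of x in A
        have hA : ∃ a, a ∉ K ∧ a ∉ nb G K ∧ G.Adj x a := by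
          by_contra hcon
          push Not at hcon
          have hsub : (Finset.univ.filter (fun w => G.Adj x w)) ⊆
              insert v (insert w ((nb G K).erase x)) := by
            intro y hy
            rw [Finset.mem_filter] at hy
            rw [Finset.mem_insert, Finset.mem_insert]
            by_cases hyK : y ∈ K
            · by_cases hyv : y = v
              · exact Or.inl hyv
              · right; left
                exact huniq y (Finset.mem_sdiff.2 ⟨hyK, by
                  rw [Finset.mem_singleton]; exact hyv⟩) hy.2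
            · right; right
              by_cases hyn : y ∈ nb G K
              · exact Finset.mem_erase.2 ⟨hy.2.ne', hyn⟩
              · exact absurd hy.2 (hcon y hyK hyn)
          have h3 := Finset.card_le_card hsub
          have h4 := Finset.card_insert_le v (insert w ((nb G K).erase x))
          have h5 := Finset.card_insert_le w ((nb G K).erase x)
          have h6 := Finset.card_erase_of_mem hxnK
          have h7 := hδ x
          have h8 := Finset.card_le_card hKD'
          have h9 : 0 < (nb G K).card := Finset.card_pos.2 ⟨x, hxnK⟩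
          omega
        obtain ⟨a, haK, han, hxa⟩ := hA
        -- Z0
        have hZ0ne : ∃ z, z ∉ K ∧ z ∉ nb G K ∧ z ∉ D' := by
          by_contra hcon
          push Not at hcon
          have haD := hcon a haK han
          have hsub : (Finset.univ.filter (fun w => G.Adj a w)) ⊆ D'.erase a := by
            intro y hy
            rw [Finset.mem_filter] at hy
            refine Finset.mem_erase.2 ⟨hy.2.ne', ?_⟩
            have hyK : y ∉ K := by
              intro hyK
              exact han (mem_nb.2 ⟨haK, y, hyK, hy.2⟩)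
            by_cases hyn : y ∈ nb G K
            · exact hKD' hyn
            · exact hcon y hyK hyn
          have h3 := Finset.card_le_card hsub
          have h4 := Finset.card_erase_of_mem haD
          have h5 := hδ a
          omega
        obtain ⟨z0, hz0K, hz0n, hz0D⟩ := hZ0ne
        have hmem : ∀ z, z ∈ ((Finset.univ \ (K ∪ nb G K)) \ D') ↔
            (z ∉ K ∧ z ∉ nb G K ∧ z ∉ D') := by
          intro z
          simp only [Finset.mem_sdiff, Finset.mem_univ, true_and, Finset.mem_union, not_or]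
          tauto
        have hnbZ : (nb G ((Finset.univ \ (K ∪ nb G K)) \ D')).card ≤ S.card - 1 := by
          rw [← hD'c]
          apply Finset.card_le_card
          intro y hy
          rw [mem_nb] at hy
          obtain ⟨hy1, z, hz, hyz⟩ := hy
          rw [hmem] at hy1 hz
          have hyK : y ∉ K := by
            intro hyK
            exact hz.2.1 (mem_nb.2 ⟨hz.1, y, hyK, hyz.symm⟩)
          by_cases hyn : y ∈ nb G K
          · exact hKD' hyn
          · by_contra hyD
            exact hy1 ⟨hyK, hyn, hyD⟩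
        obtain ⟨Y', hY'Z, hY', hY't, _, _⟩ := exists_min (t := S.card - 1) hδ (by omega)
          ((Finset.univ \ (K ∪ nb G K)) \ D')
          ⟨(Finset.univ \ (K ∪ nb G K)) \ D', subset_rfl,
            ⟨z0, (hmem z0).2 ⟨hz0K, hz0n, hz0D⟩⟩, hnbZ⟩
        have hdisD : Disjoint Y' (S.erase u) := by
          apply hD' Y' hY'
          rw [Finset.disjoint_left]
          intro y hy
          exact ((hmem y).1 (hY'Z hy)).2.2
        have hY'S : Y' ⊆ Finset.univ \ S := by
          intro y hy
          refine Finset.mem_sdiff.2 ⟨Finset.mem_univ _, ?_⟩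
          intro hyS
          by_cases hyu : y = u
          · subst hyu
            exact ((hmem y).1 (hY'Z hy)).1 huK
          · exact Finset.disjoint_left.1 hdisD hy (Finset.mem_erase.2 ⟨hyu, hyS⟩)
        have := h1 Y' hY'S hY'.1
        omega

omit [Fintype V] in
/-- A connected fort is a PSD fort. -/
lemma cf_fort {Z : Finset V} (hZ : CF G Z) : IsPSDFort G (Z : Set V) := by
  obtain ⟨hne, hcon, hthird⟩ := hZ
  refine ⟨by exact_mod_cast hne, ?_⟩
  intro v hv W hcard
  have hvZ : v ∉ Z := by simpa using hv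
  -- the component is everything
  have hall : ∀ z ∈ Z, z ∈ (Subtype.val '' W.supp : Set V) := by
    obtain ⟨w0, hw0⟩ := W.nonempty_supp
    set A : Finset V := Z.filter (fun z => z ∈ (Subtype.val '' W.supp : Set V)) with hAdef
    have hAne : A.Nonempty := by
      refine ⟨w0.1, ?_⟩
      rw [hAdef, Finset.mem_filter]
      exact ⟨by exact_mod_cast w0.2, w0, hw0, rfl⟩
    by_cases hAZ : A = Z
    · intro z hz
      rw [← hAZ, hAdef, Finset.mem_filter] at hz
      exact hz.2
    · exfalso
      obtain ⟨a, ha, b, hb, hbA, hab⟩ := hcon A (Finset.filter_subset _ _) hAne hAZ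
      rw [hAdef, Finset.mem_filter] at ha
      obtain ⟨haZ, a', ha', rfl⟩ := ha
      apply hbA
      rw [hAdef, Finset.mem_filter]
      have hbF : b ∈ (Z : Set V) := by exact_mod_cast hb
      refine ⟨hb, ⟨b, hbF⟩, ?_, rfl⟩
      have hadj : (G.induce (Z : Set V)).Adj a' ⟨b, hbF⟩ := hab
      rw [SimpleGraph.ConnectedComponent.mem_supp_iff] at ha' ⊢
      rw [← ha']
      exact (SimpleGraph.ConnectedComponent.connectedComponentMk_eq_of_adj hadj).symm
  rw [Set.ncard_eq_one] at hcard
  obtain ⟨w, hw⟩ := hcard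
  have hwm : w ∈ G.neighborSet v ∩ (Subtype.val '' W.supp) := by rw [hw]; rfl
  obtain ⟨hadj, w0, hw0, rfl⟩ := hwm
  obtain ⟨w', h1, h2, h3⟩ := hthird v hvZ w0.1 (by exact_mod_cast w0.2) hadj
  have : w' ∈ G.neighborSet v ∩ (Subtype.val '' W.supp) := ⟨h3, hall w' h1⟩
  rw [hw] at this
  exact h2 this

/-- The component of `u` in a PSD fort is a connected fort. -/
lemma fort_cf {F : Set V} (hF : IsPSDFort G F) {u : V} (hu : u ∈ F) :
    ∃ Z : Finset V, CF G Z ∧ (Z : Set V) ⊆ F ∧ u ∈ Z := by
  set W := (G.induce F).connectedComponentMk ⟨u, hu⟩ with hW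
  set Z : Finset V := Finset.univ.filter (fun x => x ∈ (Subtype.val '' W.supp : Set V)) with hZ
  have hmem : ∀ x, x ∈ Z ↔ ∃ h : x ∈ F, (⟨x, h⟩ : F) ∈ W.supp := by
    intro x
    rw [hZ, Finset.mem_filter]
    constructor
    · rintro ⟨_, y, hy, rfl⟩
      exact ⟨y.2, hy⟩
    · rintro ⟨h, h2⟩
      exact ⟨Finset.mem_univ _, ⟨x, h⟩, h2, rfl⟩
  have huZ : u ∈ Z := by
    rw [hmem]
    exact ⟨hu, by rw [SimpleGraph.ConnectedComponent.mem_supp_iff]⟩
  have hstep : ∀ x ∈ Z, ∀ y ∈ F, G.Adj x y → y ∈ Z := by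
    intro x hx y hy hxy
    rw [hmem] at hx ⊢
    obtain ⟨hxF, hxW⟩ := hx
    refine ⟨hy, ?_⟩
    have hadj : (G.induce F).Adj ⟨x, hxF⟩ ⟨y, hy⟩ := hxy
    rw [SimpleGraph.ConnectedComponent.mem_supp_iff] at hxW ⊢
    rw [← hxW]
    exact (SimpleGraph.ConnectedComponent.connectedComponentMk_eq_of_adj hadj).symm
  refine ⟨Z, ⟨⟨u, huZ⟩, ?_, ?_⟩, ?_, huZ⟩
  · intro A hA hAne hAZ
    by_contra hcon
    push Not at hcon
    have hwalk : ∀ (x y : F), (G.induce F).Walk x y → x.1 ∈ A → y.1 ∈ A := by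
      intro x y p
      induction p with
      | nil => exact id
      | cons h _ ih =>
        intro hx
        apply ih
        by_contra hy
        refine hcon _ hx _ ?_ hy h
        exact hstep _ (hA hx) _ (Subtype.property _) h
    obtain ⟨a, ha⟩ := hAne
    apply hAZ
    apply Finset.Subset.antisymm hA
    intro b hb
    obtain ⟨haF, haW⟩ := (hmem a).1 (hA ha)
    obtain ⟨hbF, hbW⟩ := (hmem b).1 hb
    rw [SimpleGraph.ConnectedComponent.mem_supp_iff] at haW hbW
    have hr := SimpleGraph.ConnectedComponent.exact (haW.trans hbW.symm)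
    obtain ⟨p⟩ := hr
    exact hwalk ⟨a, haF⟩ ⟨b, hbF⟩ p ha
  · intro x hx w hw hadj
    by_contra hcon
    push Not at hcon
    have hxF : x ∉ F := fun h => hx (hstep w hw x h hadj.symm)
    apply hF.2 x hxF W
    rw [Set.ncard_eq_one]
    refine ⟨w, ?_⟩
    ext y
    constructor
    · rintro ⟨h1, y', hy', rfl⟩
      by_contra hne
      exact hcon y'.1 ((hmem _).2 ⟨y'.2, hy'⟩) hne h1
    · rintro rfl
      obtain ⟨h1, h2⟩ := (hmem _).1 hw
      exact ⟨hadj, ⟨y, h1⟩, h2, rfl⟩
  · intro x hx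
    obtain ⟨h, _⟩ := (hmem x).1 (by exact_mod_cast hx)
    exact h

lemma zir_iff {S : Finset V} : IsZIr G S ↔ Irr G S := by
  constructor
  · intro h u hu
    obtain ⟨F, hF, hSF⟩ := h u hu
    have huF : u ∈ F := by
      have : u ∈ (S : Set V) ∩ F := by rw [hSF]; rfl
      exact this.2
    obtain ⟨Z, hZ, hZF, huZ⟩ := fort_cf hF huF
    refine ⟨Z, hZ, ?_⟩
    ext x
    rw [Finset.mem_inter, Finset.mem_singleton]
    constructor
    · rintro ⟨h1, h2⟩
      have : x ∈ (S : Set V) ∩ F := ⟨by exact_mod_cast h1, hZF (by exact_mod_cast h2)⟩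
      rw [hSF] at this
      exact this
    · rintro rfl
      exact ⟨hu, huZ⟩
  · intro h u hu
    obtain ⟨Z, hZ, hSZ⟩ := h u hu
    refine ⟨Z, cf_fort hZ, ?_⟩
    rw [← Finset.coe_inter, hSZ, Finset.coe_singleton]

lemma exists_maxZIr (G : SimpleGraph V) : ∃ S : Finset V, IsMaxZIr G S := by
  obtain ⟨S, hS, hmax⟩ := Finset.exists_max_image
    ((Finset.univ : Finset (Finset V)).filter (fun S => IsZIr G S)) Finset.card
    ⟨∅, by
      rw [Finset.mem_filter]
      refine ⟨Finset.mem_univ _, ?_⟩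
      intro u hu
      simp at hu⟩
  rw [Finset.mem_filter] at hS
  refine ⟨S, hS.2, ?_⟩
  intro T hST hT
  have h1 := hmax T (by rw [Finset.mem_filter]; exact ⟨Finset.mem_univ _, hT⟩)
  have h2 := Finset.card_lt_card hST
  omega

end

/-- **Main result.** For every finite simple graph `G` on a nonempty vertex set: maximal
`Z_+Ir`-sets exist, each has at least `δ(G)` elements, and hence `δ(G) ≤ z_+ir(G)`. -/
theorem result : ∀ (V : Type) [Fintype V] [Nonempty V] (G : SimpleGraph V) [DecidableRel G.Adj],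
    (∃ S, IsMaxZIr G S) ∧ (∀ S, IsMaxZIr G S → G.minDegree ≤ S.card) ∧
      G.minDegree ≤ zplusir G := by
  intro V _ _ G _
  have hmain : ∀ S, IsMaxZIr G S → G.minDegree ≤ S.card := by
    intro S hS
    by_contra hlt
    rw [not_le] at hlt
    have hδ : ∀ v, G.minDegree ≤ (Finset.univ.filter (fun w => G.Adj v w)).card := by
      intro v
      have h1 := G.minDegree_le_degree v
      have h2 : G.degree v = (Finset.univ.filter (fun w => G.Adj v w)).card := by
        rw [← SimpleGraph.card_neighborFinset_eq_degree]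
        congr 1
        ext w
        simp
      omega
    obtain ⟨v, hv, hirr⟩ := extend (δ := G.minDegree) (fun v => by convert hδ v) S hlt
      (zir_iff.1 hS.1)
    exact hS.2 (insert v S) (Finset.ssubset_insert hv) (zir_iff.2 hirr)
  refine ⟨exists_maxZIr G, hmain, ?_⟩
  obtain ⟨S, hS⟩ := exists_maxZIr G
  have hne : ({k | ∃ S : Finset V, IsMaxZIr G S ∧ S.card = k} : Set ℕ).Nonempty :=
    ⟨S.card, S, hS, rfl⟩
  refine le_csInf hne ?_
  rintro k ⟨T, hT, rfl⟩
  exact hmain T hT

end Pool.Agent.Results.MP_3c4d8f_co.DeltaLeZir
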